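import Mathlib

/-!
# Waring rank of large generic hyperplane arrangements

For `n ≥ 2` a generic arrangement of `d > 2 r ^ 2` hyperplanes in `ℙⁿ` does not have Waring rank
`r = (2n choose n)`: if `∏ l_i = ∑ m_j ^ d` then on the hyperplane `l_i = 0` two of the `r` forms
`m_j` are proportional, so `l_i` is in the span of two of the `m_j`; and each such span contains at
most two of the `l_i`.
-/

set_option autoImplicit false

namespace Pool.Agent.Results.MP_02c618_ag.NoLargeArrangement

open MvPolynomial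

/-- `F` is a sum of `w` `d`-th powers of linear forms. -/
def IsPowerSum {n : ℕ} (d w : ℕ) (F : MvPolynomial (Fin (n + 1)) ℂ) : Prop :=
  ∃ m : Fin w → MvPolynomial (Fin (n + 1)) ℂ, (∀ i, (m i).IsHomogeneous 1) ∧ F = ∑ i, m i ^ d

/-- The Waring rank of the form `F` of degree `d`: the least `w` such that `F` is a sum of `w`
`d`-th powers of linear forms. -/
noncomputable def waringRank {n : ℕ} (d : ℕ) (F : MvPolynomial (Fin (n + 1)) ℂ) : ℕ∞ :=
  ⨅ w ∈ {w : ℕ | IsPowerSum d w F}, (w : ℕ∞)

/-- `l 0, …, l (d - 1)` are linear forms in `x_0, …, x_n` defining a generic arrangement of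
`d ≥ n + 1` hyperplanes in `ℙⁿ`: any `n + 1` of them are linearly independent. -/
def IsGenericArrangement (n d : ℕ) (l : Fin d → MvPolynomial (Fin (n + 1)) ℂ) : Prop :=
  n + 1 ≤ d ∧ (∀ i, (l i).IsHomogeneous 1) ∧
    ∀ s : Finset (Fin d), s.card = n + 1 → LinearIndependent ℂ (fun i : s => l i)

/-- The statement `P(n)`: there are generic arrangements in `ℙⁿ` of arbitrarily large size with
Waring rank `(2n choose n)`. -/
def P (n : ℕ) : Prop :=
  ∀ D : ℕ, ∃ d : ℕ, D ≤ d ∧ ∃ l : Fin d → MvPolynomial (Fin (n + 1)) ℂ,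
    IsGenericArrangement n d l ∧ waringRank d (∏ i, l i) = (Nat.choose (2 * n) n : ℕ)

/-! ### Linear forms as functionals -/

theorem eval_linear {σ : Type} (l : MvPolynomial σ ℂ) (hl : l.IsHomogeneous 1) (x y : σ → ℂ)
    (t : ℂ) : eval (x + t • y) l = eval x l + t * eval y l := by
  have h : l ∈ homogeneousSubmodule σ ℂ 1 := hl
  rw [homogeneousSubmodule_one_eq_span_X] at h
  induction h using Submodule.span_induction with
  | mem p hp =>
    obtain ⟨i, rfl⟩ := hp
    simp
  | zero => simp
  | add p q hp hq h1 h2 =>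
    simp only [map_add]
    rw [h1 (by rw [← mem_homogeneousSubmodule, homogeneousSubmodule_one_eq_span_X]; exact hp),
      h2 (by rw [← mem_homogeneousSubmodule, homogeneousSubmodule_one_eq_span_X]; exact hq)]
    ring
  | smul a p hp h1 =>
    simp only [smul_eval]
    rw [h1 (by rw [← mem_homogeneousSubmodule, homogeneousSubmodule_one_eq_span_X]; exact hp)]
    ring

/-- The linear functional defined by a linear form. -/
noncomputable def toLin {σ : Type} (l : MvPolynomial σ ℂ) (hl : l.IsHomogeneous 1) :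
    (σ → ℂ) →ₗ[ℂ] ℂ where
  toFun y := eval y l
  map_add' x y := by
    have := eval_linear l hl x y 1
    simpa using this
  map_smul' t y := by
    have h0 := eval_linear l hl 0 0 1
    have := eval_linear l hl 0 y t
    simp only [zero_add, smul_zero, add_zero, one_mul] at h0 this
    have h1 : eval (0 : σ → ℂ) l = 0 := by linear_combination -h0
    rw [this, h1]
    simp

@[simp] theorem toLin_apply {σ : Type} (l : MvPolynomial σ ℂ) (hl : l.IsHomogeneous 1)
    (y : σ → ℂ) : toLin l hl y = eval y l := rfl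

/-! ### Powers of pairwise independent functionals -/

section Powers

variable {U : Type} [AddCommGroup U] [Module ℂ U] {ι : Type}

/-- Differentiating a relation between `d`-th powers. -/
theorem deriv_rel (φ : ι → (U →ₗ[ℂ] ℂ)) (c : ι → ℂ) (s : Finset ι) (d : ℕ)
    (h : ∀ x, ∑ j ∈ s, c j * φ j x ^ (d + 1) = 0) (y : U) :
    ∀ x, ∑ j ∈ s, c j * φ j y * φ j x ^ d = 0 := by
  intro x
  let Q : Polynomial ℂ := ∑ j ∈ s, Polynomial.C (c j) *
    (Polynomial.C (φ j x) + Polynomial.C (φ j y) * Polynomial.X) ^ (d + 1)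
  have hQ : Q = 0 := by
    apply Polynomial.funext
    intro t
    have := h (x + t • y)
    simp only [map_add, map_smul, smul_eq_mul] at this
    simp only [Q, Polynomial.eval_finsetSum, Polynomial.eval_mul, Polynomial.eval_C,
      Polynomial.eval_pow, Polynomial.eval_add, Polynomial.eval_X, Polynomial.eval_zero]
    rw [← this]
    refine Finset.sum_congr rfl fun j _ => ?_
    ring
  have h1 : Polynomial.eval 0 (Polynomial.derivative Q) = 0 := by rw [hQ]; simp
  have h2 : Polynomial.eval 0 (Polynomial.derivative Q) =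
      ((d : ℂ) + 1) * ∑ j ∈ s, c j * φ j y * φ j x ^ d := by
    simp only [Q, Polynomial.derivative_sum, Polynomial.eval_finsetSum, Finset.mul_sum]
    refine Finset.sum_congr rfl fun j _ => ?_
    simp [Polynomial.derivative_pow]
    ring
  rw [h2] at h1
  rcases mul_eq_zero.1 h1 with h3 | h3
  · exact absurd h3 (Nat.cast_add_one_ne_zero d)
  · exact h3

/-- At most `d + 1` pairwise independent functionals have linearly independent `d`-th powers. -/
theorem powers_indep [DecidableEq ι] (φ : ι → (U →ₗ[ℂ] ℂ)) :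
    ∀ (m d : ℕ) (c : ι → ℂ) (s : Finset ι), s.card = m → m ≤ d + 1 →
      (∀ j ∈ s, φ j ≠ 0) →
      (∀ j ∈ s, ∀ k ∈ s, j ≠ k → ∃ y, φ k y = 0 ∧ φ j y ≠ 0) →
      (∀ x, ∑ j ∈ s, c j * φ j x ^ d = 0) → ∀ j ∈ s, c j = 0 := by
  intro m
  induction m with
  | zero =>
    intro d c s hs _ _ _ _ j hj
    rw [Finset.card_eq_zero] at hs
    subst hs
    simp at hj
  | succ m ih =>
    intro d c s hs hmd hne hpair h j hj
    by_cases hk : ∃ k ∈ s, k ≠ j
    · obtain ⟨k, hks, hkj⟩ := hk
      obtain ⟨y, hy1, hy2⟩ := hpair j hj k hks hkj.symm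
      have hm : m ≠ 0 := by
        rintro rfl
        have h1 := Finset.card_le_one.1 (le_of_eq hs) j hj k hks
        exact hkj h1.symm
      obtain ⟨e, rfl⟩ : ∃ e, d = e + 1 := ⟨d - 1, by omega⟩
      have h1 := deriv_rel φ c s e h y
      have h2 := ih e (fun j => c j * φ j y) (s.erase k) (by rw [Finset.card_erase_of_mem hks, hs]; rfl)
        (by omega) (fun j hj => hne j (Finset.mem_of_mem_erase hj))
        (fun a ha b hb hab => hpair a (Finset.mem_of_mem_erase ha) b (Finset.mem_of_mem_erase hb) hab)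
        (by
          intro x
          have h3 := h1 x
          rw [← Finset.add_sum_erase s _ hks, hy1] at h3
          simpa using h3)
        j (Finset.mem_erase.2 ⟨hkj.symm, hj⟩)
      rcases mul_eq_zero.1 h2 with h3 | h3
      · exact h3
      · exact absurd h3 hy2
    · push Not at hk
      have hs1 : s = {j} := by
        ext a
        simp only [Finset.mem_singleton]
        exact ⟨fun ha => hk a ha, fun ha => ha ▸ hj⟩
      have h0 := hne j hj
      obtain ⟨x, hx⟩ : ∃ x, φ j x ≠ 0 := by
        by_contra hcon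
        push Not at hcon
        exact h0 (LinearMap.ext fun x => by simpa using hcon x)
      have h1 := h x
      rw [hs1, Finset.sum_singleton] at h1
      rcases mul_eq_zero.1 h1 with h3 | h3
      · exact h3
      · exact absurd h3 (pow_ne_zero _ hx)

end Powers

/-! ### Minimal decompositions -/

theorem isPowerSum_finset {n d : ℕ} {ι : Type} [DecidableEq ι] (s : Finset ι)
    (m : ι → MvPolynomial (Fin (n + 1)) ℂ) (hm : ∀ i ∈ s, (m i).IsHomogeneous 1) :
    IsPowerSum d s.card (∑ i ∈ s, m i ^ d) := by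
  refine ⟨fun a => m (s.equivFin.symm a), fun a => hm _ (s.equivFin.symm a).2, ?_⟩
  rw [← Finset.sum_coe_sort s (fun i => m i ^ d)]
  exact (Equiv.sum_comp s.equivFin.symm (fun i : s => m i ^ d)).symm

/-- The forms of a minimal decomposition are pairwise independent. -/
theorem merge {n d w : ℕ} (hd : 0 < d) (m : Fin w → MvPolynomial (Fin (n + 1)) ℂ)
    (hm : ∀ i, (m i).IsHomogeneous 1) (j k : Fin w) (hjk : j ≠ k) (a : ℂ)
    (h : m k = C a * m j) : IsPowerSum d (w - 1) (∑ i, m i ^ d) := by
  classical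
  obtain ⟨z, hz⟩ := IsAlgClosed.exists_pow_nat_eq (1 + a ^ d) hd
  have h1 := isPowerSum_finset (d := d) (Finset.univ.erase k)
    (fun i => if i = j then C z * m j else m i) (by
      intro i _
      by_cases hij : i = j
      · rw [if_pos hij]
        simpa using (isHomogeneous_C _ z).mul (hm j)
      · rw [if_neg hij]
        exact hm i)
  rw [Finset.card_erase_of_mem (Finset.mem_univ k), Finset.card_univ, Fintype.card_fin] at h1
  convert! h1 using 1
  have hj : j ∈ Finset.univ.erase k := Finset.mem_erase.2 ⟨hjk, Finset.mem_univ j⟩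
  rw [← Finset.add_sum_erase _ _ (Finset.mem_univ k), ← Finset.add_sum_erase _ _ hj,
    ← Finset.add_sum_erase _ _ hj, if_pos rfl, h, mul_pow, mul_pow, ← C_pow, ← C_pow, hz, C_add,
    C_1, ← add_assoc]
  congr 1
  · ring
  · refine Finset.sum_congr rfl fun i hi => ?_
    rw [if_neg (Finset.ne_of_mem_erase hi)]

theorem exists_minimal {n d r : ℕ} {F : MvPolynomial (Fin (n + 1)) ℂ}
    (h : waringRank d F = (r : ℕ)) : IsPowerSum d r F ∧ ∀ w < r, ¬ IsPowerSum d w F := by
  classical
  have hne : ∃ w, IsPowerSum d w F := by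
    by_contra hcon
    push Not at hcon
    have : waringRank d F = ⊤ := by
      unfold waringRank
      simp [hcon]
    rw [this] at h
    exact ENat.top_ne_natCast r h
  have h1 : waringRank d F = (Nat.find hne : ℕ) := by
    apply le_antisymm
    · have h2 : Nat.find hne ∈ {w : ℕ | IsPowerSum d w F} := Nat.find_spec hne
      exact iInf₂_le (f := fun (w : ℕ) (_ : w ∈ {w : ℕ | IsPowerSum d w F}) => (w : ℕ∞)) _ h2
    · exact le_iInf₂ fun w hw => Nat.cast_le.2 (Nat.find_min' hne hw)
  have h2 : Nat.find hne = r := by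
    rw [h1] at h
    exact_mod_cast h
  subst h2
  exact ⟨Nat.find_spec hne, fun w hw => Nat.find_min hne hw⟩

/-! ### The argument -/

/-- Every form `l i` of an arrangement of Waring rank `r` (`2 ≤ r ≤ d + 1`) is a combination of
two of the forms in a minimal decomposition. -/
theorem mem_span_pair {n d r : ℕ} (hr : 2 ≤ r) (hrd : r ≤ d + 1)
    (l : Fin d → MvPolynomial (Fin (n + 1)) ℂ) (hl : ∀ i, (l i).IsHomogeneous 1)
    (m : Fin r → MvPolynomial (Fin (n + 1)) ℂ) (hm : ∀ i, (m i).IsHomogeneous 1)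
    (hF : ∏ i, l i = ∑ i, m i ^ d)
    (hmin : ∀ j k : Fin r, j ≠ k → ∀ a : ℂ, m k ≠ C a * m j) (i : Fin d) :
    ∃ j k : Fin r, l i ∈ Submodule.span ℂ {m j, m k} := by
  classical
  by_contra hcon
  push Not at hcon
  let U := LinearMap.ker (toLin (l i) (hl i))
  let φ : Fin r → (U →ₗ[ℂ] ℂ) := fun j => (toLin (m j) (hm j)).domRestrict U
  have hpair : ∀ j ∈ (Finset.univ : Finset (Fin r)), ∀ k ∈ (Finset.univ : Finset (Fin r)),
      j ≠ k → ∃ y, φ k y = 0 ∧ φ j y ≠ 0 := by
    intro j _ k _ hjk
    by_contra hno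
    push Not at hno
    have h1 : (⨅ t, LinearMap.ker ((![toLin (m k) (hm k), toLin (l i) (hl i)] :
        Fin 2 → ((Fin (n + 1) → ℂ) →ₗ[ℂ] ℂ)) t)) ≤ LinearMap.ker (toLin (m j) (hm j)) := by
      intro y hy
      rw [Submodule.mem_iInf] at hy
      have h0 := hy 0
      have h1 := hy 1
      simp only [Matrix.cons_val_zero, Matrix.cons_val_one, LinearMap.mem_ker] at h0 h1
      exact hno ⟨y, h1⟩ h0
    have h2 := mem_span_of_iInf_ker_le_ker h1
    rw [Matrix.range_cons, Matrix.range_cons, Matrix.range_empty, Set.union_empty,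
      Set.singleton_union, Submodule.mem_span_pair] at h2
    obtain ⟨a, b, hab⟩ := h2
    have h3 : m j = a • m k + b • l i := by
      apply MvPolynomial.funext
      intro y
      have := LinearMap.congr_fun hab y
      simp only [LinearMap.add_apply, LinearMap.smul_apply, toLin_apply, smul_eq_mul] at this
      rw [map_add, smul_eval, smul_eval, this]
    by_cases hb : b = 0
    · rw [hb, zero_smul, add_zero] at h3
      exact hmin k j hjk.symm a (by rw [h3, C_mul'])
    · apply hcon j k
      rw [Submodule.mem_span_pair]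
      refine ⟨b⁻¹, -(b⁻¹ * a), ?_⟩
      rw [h3, smul_add, smul_smul, smul_smul, inv_mul_cancel₀ hb, one_smul, neg_smul]
      abel
  have hne : ∀ j ∈ (Finset.univ : Finset (Fin r)), φ j ≠ 0 := by
    intro j _ h0
    obtain ⟨k, hk⟩ : ∃ k : Fin r, j ≠ k := by
      by_cases h : j = ⟨0, by omega⟩
      · exact ⟨⟨1, by omega⟩, by rw [h]; simp⟩
      · exact ⟨⟨0, by omega⟩, h⟩
    obtain ⟨y, _, hy⟩ := hpair j (Finset.mem_univ j) k (Finset.mem_univ k) hk
    exact hy (by rw [h0]; rfl)
  have h := powers_indep φ r d (fun _ => 1) Finset.univ (by simp) hrd hne hpair (by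
    intro x
    have h1 : eval (x : Fin (n + 1) → ℂ) (∏ i, l i) = 0 := by
      rw [map_prod]
      exact Finset.prod_eq_zero (Finset.mem_univ i) (LinearMap.mem_ker.1 x.2)
    rw [hF, map_sum] at h1
    rw [← h1]
    refine Finset.sum_congr rfl fun j _ => ?_
    simp [φ]) ⟨0, by omega⟩ (Finset.mem_univ _)
  exact one_ne_zero h

theorem two_le_choose {n : ℕ} (hn : 2 ≤ n) : 2 ≤ Nat.choose (2 * n) n := by
  have h := Nat.choose_le_choose n (show n + 1 ≤ 2 * n by omega)
  rw [Nat.choose_succ_self_right] at h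
  omega

/-- For no `n ≥ 2` are there generic arrangements in `ℙⁿ` of arbitrarily large size with Waring
rank `(2n choose n)`. -/
theorem result (n : ℕ) (hn : 2 ≤ n) : ¬ P n := by
  classical
  intro hP
  set r := Nat.choose (2 * n) n with hr
  have hr2 : 2 ≤ r := two_le_choose hn
  obtain ⟨d, hd, l, ⟨hnd, hl, hgen⟩, hw⟩ := hP (r * r * 2 + 1)
  obtain ⟨⟨m, hm, hF⟩, hmin⟩ := exists_minimal hw
  have hrr : r ≤ r * r := Nat.le_mul_self r
  have hindep : ∀ j k : Fin r, j ≠ k → ∀ a : ℂ, m k ≠ C a * m j := by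
    intro j k hjk a h
    apply hmin (r - 1) (by omega)
    rw [hF]
    exact merge (by omega) m hm j k hjk a h
  have hpairs := fun i => mem_span_pair hr2 (by omega) l hl m hm hF hindep i
  choose f g hfg using hpairs
  obtain ⟨⟨j, k⟩, _, hcard⟩ := Finset.exists_lt_card_fiber_of_mul_lt_card_of_maps_to
    (s := (Finset.univ : Finset (Fin d))) (t := (Finset.univ : Finset (Fin r × Fin r)))
    (f := fun i => (f i, g i)) (n := 2) (fun _ _ => Finset.mem_univ _) (by
      simp only [Finset.card_univ, Fintype.card_prod, Fintype.card_fin]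
      omega)
  obtain ⟨t, ht, htc⟩ := Finset.exists_subset_card_eq (Nat.succ_le_of_lt hcard)
  obtain ⟨s, hts, hsc⟩ := Finset.exists_superset_card_eq (s := t) (n := n + 1) (by omega) (by simpa using hnd)
  have hLI : LinearIndependent ℂ (fun i : t => l i) :=
    (hgen s hsc).comp (fun i : t => (⟨i.1, hts i.2⟩ : s)) (fun a b hab => by
      apply Subtype.ext
      exact congrArg (fun x : s => (x : Fin d)) hab)
  have hmem : ∀ i : t, l i ∈ Submodule.span ℂ {m j, m k} := by
    intro i
    have h1 := (Finset.mem_filter.1 (ht i.2)).2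
    have h2 := hfg i
    simp only [Prod.mk.injEq] at h1
    rw [h1.1, h1.2] at h2
    exact h2
  have hLI' : LinearIndependent ℂ
      (fun i : t => (⟨l i, hmem i⟩ : Submodule.span ℂ ({m j, m k} : Set (MvPolynomial (Fin (n + 1)) ℂ)))) :=
    LinearIndependent.of_comp (Submodule.subtype _) hLI
  have : FiniteDimensional ℂ (Submodule.span ℂ ({m j, m k} : Set (MvPolynomial (Fin (n + 1)) ℂ))) :=
    FiniteDimensional.span_of_finite ℂ (Set.toFinite _)
  have h3 := hLI'.fintype_card_le_finrank
  have h4 := finrank_span_le_card (R := ℂ) ({m j, m k} : Set (MvPolynomial (Fin (n + 1)) ℂ))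
  have h5 : ({m j, m k} : Set (MvPolynomial (Fin (n + 1)) ℂ)).toFinset.card ≤ 2 := by
    rw [Set.toFinset_insert, Set.toFinset_singleton]
    exact Finset.card_le_two
  rw [Fintype.card_coe, htc] at h3
  omega

end Pool.Agent.Results.MP_02c618_ag.NoLargeArrangement
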